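import Mathlib
import Pool.Agent.helper73.ASU.All2
import Pool.Agent.helper47.EIF.All

set_option autoImplicit false

namespace Pool.Agent.Results.MP_f6e9a2_nt.ArbitrarySubsets

open Finset

/-- The power saving of the Paley graph conjecture for ALL subsets `A`, `B` of a progression (of a Moebius image of
`{0, .., N-1}`), uniformly in the subsets: (0) for every large prime and all `χ ≠ 1`; with exceptional sets of size `X^σ` (`p^σ`): (a) for almost all primes `p ≤ X`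
and all `χ ≠ 1`; (b) for almost all primes and the Legendre symbol, sparser sets; (c) for every prime and almost all
characters. -/
theorem result : ∀ k : ℕ, 1 ≤ k → ∀ ε : ℝ, 0 < ε → ∀ σ : ℝ, 0 < σ → ∃ δ C : ℝ, 0 < δ ∧ 0 < C ∧
    (∀ (p : ℕ) [Fact p.Prime], C < p → ∀ χ : MulChar (ZMod p) ℂ, χ ≠ 1 →
        ∀ N : ℕ, N ≤ p → ∀ (A B : Finset ℕ) (a b c d : ZMod p), A ⊆ range N → B ⊆ range N → a * d - b * c ≠ 0 →
          (∀ x ∈ A, c * (x : ZMod p) + d ≠ 0) → (∀ y ∈ B, c * (y : ZMod p) + d ≠ 0) →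
          (p : ℝ) ^ (1 - 1 / (k : ℝ) + ε) * (N : ℝ) ^ (2 / (2 * (k : ℝ) - 1)) ≤ (A.card : ℝ) * B.card →
          ∀ w : ℕ → ℂ, (∀ y, ‖w y‖ ≤ 1) →
            ∑ x ∈ A, ‖∑ y ∈ B, w y * χ ((a * (x : ZMod p) + b) / (c * (x : ZMod p) + d) -
              (a * (y : ZMod p) + b) / (c * (y : ZMod p) + d))‖ ≤ (p : ℝ) ^ (-δ) * (A.card * B.card)) ∧
    (∀ X : ℕ, 1 ≤ X → ∃ E : Finset ℕ, (E.card : ℝ) ≤ C * (X : ℝ) ^ σ ∧
      ∀ (p : ℕ) [Fact p.Prime], p ≤ X → p ∉ E → ∀ χ : MulChar (ZMod p) ℂ, χ ≠ 1 →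
        ∀ N : ℕ, N ≤ p → ∀ (A B : Finset ℕ) (a b c d : ZMod p), A ⊆ range N → B ⊆ range N → a * d - b * c ≠ 0 →
          (∀ x ∈ A, c * (x : ZMod p) + d ≠ 0) → (∀ y ∈ B, c * (y : ZMod p) + d ≠ 0) →
          (p : ℝ) ^ ε * (p * (N : ℝ) ^ k + (N : ℝ) ^ (2 * k + 1) / (p : ℝ) ^ σ) ≤ ((A.card : ℝ) * B.card) ^ k →
          ∀ w : ℕ → ℂ, (∀ y, ‖w y‖ ≤ 1) →
            ∑ x ∈ A, ‖∑ y ∈ B, w y * χ ((a * (x : ZMod p) + b) / (c * (x : ZMod p) + d) -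
              (a * (y : ZMod p) + b) / (c * (y : ZMod p) + d))‖ ≤ (p : ℝ) ^ (-δ) * (A.card * B.card)) ∧
    (∀ X : ℕ, 1 ≤ X → ∃ E : Finset ℕ, (E.card : ℝ) ≤ C * (X : ℝ) ^ σ ∧
      ∀ (p : ℕ) [Fact p.Prime], p ≤ X → p ∉ E →
        ∀ N : ℕ, N ≤ p → ∀ (A B : Finset ℕ) (a b c d : ZMod p), A ⊆ range N → B ⊆ range N → a * d - b * c ≠ 0 →
          (∀ x ∈ A, c * (x : ZMod p) + d ≠ 0) → (∀ y ∈ B, c * (y : ZMod p) + d ≠ 0) →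
          (p : ℝ) ^ ε * ((p * (N : ℝ) ^ (k + 1) + (N : ℝ) ^ (3 * k)) / (p : ℝ) ^ σ) ≤ ((A.card : ℝ) * B.card) ^ k →
          ∀ w : ℕ → ℂ, (∀ y, ‖w y‖ ≤ 1) →
            ∑ x ∈ A, ‖∑ y ∈ B, w y * ((quadraticChar (ZMod p) ((a * (x : ZMod p) + b) / (c * (x : ZMod p) + d) -
              (a * (y : ZMod p) + b) / (c * (y : ZMod p) + d)) : ℤ) : ℂ)‖ ≤ (p : ℝ) ^ (-δ) * (A.card * B.card)) ∧
    (∀ (p : ℕ) [Fact p.Prime], ∃ E : Finset (MulChar (ZMod p) ℂ), (E.card : ℝ) ≤ C * (p : ℝ) ^ σ ∧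
      ∀ χ : MulChar (ZMod p) ℂ, χ ∉ E →
        ∀ N : ℕ, N ≤ p → ∀ (A B : Finset ℕ) (a b c d : ZMod p), A ⊆ range N → B ⊆ range N → a * d - b * c ≠ 0 →
          (∀ x ∈ A, c * (x : ZMod p) + d ≠ 0) → (∀ y ∈ B, c * (y : ZMod p) + d ≠ 0) →
          (p : ℝ) ^ ε * ((p * (N : ℝ) ^ (k + 1) + (N : ℝ) ^ (2 * k + 1)) / (p : ℝ) ^ σ) ≤ ((A.card : ℝ) * B.card) ^ k →
          ∀ w : ℕ → ℂ, (∀ y, ‖w y‖ ≤ 1) →
            ∑ x ∈ A, ‖∑ y ∈ B, w y * χ ((a * (x : ZMod p) + b) / (c * (x : ZMod p) + d) -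
              (a * (y : ZMod p) + b) / (c * (y : ZMod p) + d))‖ ≤ (p : ℝ) ^ (-δ) * (A.card * B.card)) := by
  intro k hk ε hε σ hσ
  obtain ⟨δ, C, hδ, hC, h1, h2, h3, -⟩ := Pool.Agent.ASU.q_main k hk ε hε σ hσ
  obtain ⟨δ₀, p₀, hδ₀, h₀⟩ := Pool.Agent.EIF.p_COR k (by omega) ε hε
  refine ⟨min δ δ₀, C + p₀, lt_min hδ hδ₀, by positivity, ?_, ?_, ?_, ?_⟩
  · intro p _ hp χ hχ N hN A B a b c d hA hB hdet hcA hcB hR w hw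
    have hp1 : (1 : ℝ) ≤ p := by exact_mod_cast (Fact.out : p.Prime).one_lt.le
    have hpp : p₀ < p := by
      have : (p₀ : ℝ) < p := by linarith
      exact_mod_cast this
    exact (h₀ p hpp N A B a b c d hN hA hB hdet hcA hcB (Or.inl hR) χ hχ w hw).trans
      (Pool.Agent.ASU.FS_rpow hp1 (min_le_right _ _) (by positivity))
  · exact Pool.Agent.ASU.FS_mA h1 (min_le_left _ _) (by linarith [(Nat.cast_nonneg p₀ : (0 : ℝ) ≤ p₀)])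
  · exact Pool.Agent.ASU.FS_mL h2 (min_le_left _ _) (by linarith [(Nat.cast_nonneg p₀ : (0 : ℝ) ≤ p₀)])
  · exact Pool.Agent.ASU.FS_mB h3 (min_le_left _ _) (by linarith [(Nat.cast_nonneg p₀ : (0 : ℝ) ≤ p₀)])

end Pool.Agent.Results.MP_f6e9a2_nt.ArbitrarySubsets
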