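import Mathlib
import Pool.Agent.helper95.PY2.AllE

set_option autoImplicit false

open Finset

namespace Pool.Agent.Results.MP_f6e9a2_nt.LocalEnergy

/-- The additive energy `#{(b₁, b₂, b₃, b₄) ∈ X⁴ : b₁ - b₂ = b₃ - b₄}`. -/
def energy {p : ℕ} (X : Finset (ZMod p)) : ℕ :=
  (((X ×ˢ X) ×ˢ (X ×ˢ X)).filter fun w => w.1.1 - w.1.2 = w.2.1 - w.2.2).card

/-- The points of `B` at distance `< N` from `x` (distance on the circle `ZMod p`). -/
def near {p : ℕ} (B : Finset (ZMod p)) (N : ℕ) (x : ZMod p) : Finset (ZMod p) :=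
  B.filter fun y => (y - x).valMinAbs.natAbs < N

/-- The local energy `∑_{x ∈ B} E(B_x) / |B_x|³`, `B_x` the points of `B` at distance `< N` from `x`. -/
noncomputable def localEnergy {p : ℕ} (B : Finset (ZMod p)) (N : ℕ) : ℝ :=
  ∑ x ∈ B, (energy (near B N x) : ℝ) / ((near B N x).card : ℝ) ^ 3

/-- Power saving for double character sums when `A` lies in a Moebius image of an interval of length `N`, `B` is
arbitrary and `N |B|² ≥ p^(1/2+ε) E`, `E ≤ |B|` the local energy of `B` in the coordinate of the interval. -/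
theorem result :
    (∀ ε : ℝ, 0 < ε → ∃ δ : ℝ, 0 < δ ∧ ∃ p₀ : ℕ, ∀ (p : ℕ) [Fact p.Prime], p₀ < p →
      ∀ (A B : Finset (ZMod p)) (a b c d : ZMod p) (N : ℕ), a * d - b * c ≠ 0 → N < p →
        (∀ z ∈ A, ∃ n : ℕ, n < N ∧ c * (n : ZMod p) + d ≠ 0 ∧
          z = (a * (n : ZMod p) + b) / (c * (n : ZMod p) + d)) →
        (p : ℝ) ^ ε ≤ N → (p : ℝ) ^ ε ≤ B.card →
        (p : ℝ) ^ (1 / 2 + ε) * localEnergy ((B.filter fun w => a + c * w ≠ 0).image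
          fun w => (b + d * w) / (a + c * w)) N ≤ N * (B.card : ℝ) ^ 2 →
        ∀ χ : MulChar (ZMod p) ℂ, χ ≠ 1 → ∀ β : ZMod p → ℂ, (∀ w, ‖β w‖ ≤ 1) →
          ∑ z ∈ A, ‖∑ w ∈ B, β w * χ (z + w)‖ ≤ (p : ℝ) ^ (-δ) * N * B.card) ∧
    (∀ (p : ℕ) [Fact p.Prime] (B : Finset (ZMod p)) (N : ℕ), localEnergy B N ≤ B.card) := by
  refine ⟨fun ε hε => ?_, fun p _ B N => ?_⟩
  · exact Pool.Agent.PY2.p_FE ε hε
  · exact Pool.Agent.PY2.loc_le B N

end Pool.Agent.Results.MP_f6e9a2_nt.LocalEnergy
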