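import Mathlib
import Pool.Agent.helper64.OT.AllG

/-!
# MP_f6e9a2_nt, Q1: one set in a structured set, the other set ARBITRARY, below the square root barrier

For all `K` and `ε > 0` there are `δ > 0` and `p₀` such that for all primes `p > p₀`, all sets `X, Y ⊆ ZMod p` as in (a), (b),
(c) or (d), every map `g(x) = (a x + b)/(c x + d)` without poles on `X ∪ Y`, all `χ ≠ 1` and all `|β_y| ≤ 1`: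
`∑_(x ∈ X) |∑_(y ∈ Y) β_y χ(g(x) - g(y))| ≤ p^(-δ) ((p |X| |Y|)^(1/2) + |X| |Y|)`.

In (a), (b), (c): `X` is any subset of `Z + H`, where `|Z| ≤ p^δ` and `|H + H| ≤ K |H|`.
(a) `|H| ≤ p^(3/4-ε)`, and `Y` is arbitrary (`|Y| ≤ p^(1-ε)` or `|X| ≥ p^ε`);
(b) `Y` is any subset of `W + H`, where `|H| |W| ≤ p^(1-ε)`;
(c) `Y` is any subset of `W + H'`, where `|W| ≤ p^δ`, `|H' + H'| ≤ K |H'|`, `|H|, |H'| ≤ p^(1-ε)`;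
(d) `X` is any subset of `Z + {0,..,N-1}`, `|Z| ≤ p^δ`, `N ≤ p^(1-ε)`, and `Y` has small local energy:
    `(N + p^(3/4)) E_N(Y) ≤ p^(-ε) |Y|^4` (`|Y| ≤ p^(1-ε)` or `|X| ≥ p^ε`).
-/

set_option autoImplicit false

open Finset
open scoped Pointwise

namespace Pool.Agent.Results.MP_f6e9a2_nt.OneArbitrarySet

/-- the local energy `#{(y₁,y₂,y₃,y₄) ∈ Y⁴ : y₁ - y₂ = y₃ - y₄, |y₁ - y₃| < N}` (distance on the circle `ZMod p`) -/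
def localE {p : ℕ} (N : ℕ) (Y : Finset (ZMod p)) : ℕ :=
  (((Y ×ˢ Y) ×ˢ (Y ×ˢ Y)).filter fun z =>
    z.1.1 - z.1.2 = z.2.1 - z.2.2 ∧ (z.1.1 - z.2.1).valMinAbs.natAbs < N).card

theorem result : ∀ (K ε : ℝ), 0 < ε → ∃ (δ : ℝ) (p₀ : ℕ), 0 < δ ∧ ∀ (p : ℕ) [Fact p.Prime], p₀ < p →
    ∀ (X Y Z W H H' : Finset (ZMod p)) (N : ℕ) (a b c d : ZMod p),
      (∀ x ∈ X, c * x + d ≠ 0) → (∀ y ∈ Y, c * y + d ≠ 0) → (Z.card : ℝ) ≤ (p : ℝ) ^ δ →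
      (((H + H).card : ℝ) ≤ K * H.card ∧ X ⊆ Z + H ∧
          (((H.card : ℝ) ≤ (p : ℝ) ^ (3 / 4 - ε) ∧ ((Y.card : ℝ) ≤ (p : ℝ) ^ (1 - ε) ∨ (p : ℝ) ^ ε ≤ X.card)) ∨
            (Y ⊆ W + H ∧ (H.card : ℝ) * W.card ≤ (p : ℝ) ^ (1 - ε)) ∨
            (Y ⊆ W + H' ∧ (W.card : ℝ) ≤ (p : ℝ) ^ δ ∧ ((H' + H').card : ℝ) ≤ K * H'.card ∧
              (H.card : ℝ) ≤ (p : ℝ) ^ (1 - ε) ∧ (H'.card : ℝ) ≤ (p : ℝ) ^ (1 - ε)))) ∨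
        ((∀ x ∈ X, ∃ z ∈ Z, ∃ n : ℕ, n < N ∧ x = z + (n : ZMod p)) ∧ (N : ℝ) ≤ (p : ℝ) ^ (1 - ε) ∧
          ((N : ℝ) + (p : ℝ) ^ (3 / 4 : ℝ)) * (localE N Y : ℝ) ≤ (p : ℝ) ^ (-ε) * (Y.card : ℝ) ^ 4 ∧
          ((Y.card : ℝ) ≤ (p : ℝ) ^ (1 - ε) ∨ (p : ℝ) ^ ε ≤ X.card)) →
      ∀ χ : MulChar (ZMod p) ℂ, χ ≠ 1 → ∀ β : ZMod p → ℂ, (∀ y, ‖β y‖ ≤ 1) →
        ∑ x ∈ X, ‖∑ y ∈ Y, β y * χ ((a * x + b) / (c * x + d) - (a * y + b) / (c * y + d))‖ ≤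
          (p : ℝ) ^ (-δ) * (Real.sqrt (p * (X.card * Y.card)) + X.card * Y.card) := by
  intro K ε hε
  obtain ⟨δ, p₀, hδ, h⟩ := Pool.Agent.OG.p_OTG K ε hε
  refine ⟨δ, p₀, hδ, fun p _ hp X Y Z W H H' N a b c d hX hY hZ hyp χ hχ β hβ => ?_⟩
  refine h p hp χ N X Y Z W H H' β a b c d hχ hβ hX hY hZ ?_
  rcases hyp with ⟨h1, h2, ⟨h3, h4⟩ | ⟨h3, h4⟩ | ⟨h3, h4, h5, h6, h7⟩⟩ | ⟨h1, h2, h3, h4⟩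
  · exact Or.inl ⟨h1, h2, Or.inl ⟨h3, h4⟩⟩
  · exact Or.inl ⟨h1, h2, Or.inr ⟨h4, h3⟩⟩
  · exact Or.inr (Or.inr ⟨h4, h1, h5, h6, h7, h2, h3⟩)
  · exact Or.inr (Or.inl ⟨h2, h1, Or.inl ⟨h4, Or.inr h3⟩⟩)

end Pool.Agent.Results.MP_f6e9a2_nt.OneArbitrarySet
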