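import Mathlib
import Pool.Agent.helper81.WS.All

set_option autoImplicit false

open Finset
open scoped Pointwise

/-!
# A set of small doubling and an arbitrary set

Power saving in the double character sum over `A × B` when only `A` has structure: `C` has small doubling, `A` is almost
invariant under the addition of `C`, and `B` is arbitrary, with the hypothesis on the sumset `|B + D|` with some set `D` of
small doubling `p^(1/2+ε) |B+D|² ≤ |C| |D| |B|²`.

For `C = D = A` with `|A + A| ≤ K |A|`: `|A + B| ≤ p^(-1/4-ε) |A| |B|` suffices, so every subset `B` of `A` with at least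
`p^(1/4+ε)` elements is allowed.

Proof: `B` is cut into cells, the translates of a small ball of the system of `C`.  Cells with many points: Cauchy-Schwarz
in each cell and the shifts by multiples of `b' - b` leave one point `(c + b)/(b' - b)`; here `b' - b` lies in the
intersection and `c + b` in the sum of two systems (images of balls of discrete subgroups of `E × ZMod p`), so that the second
moment is a mixed multiplicative energy of the two, bounded by the level set theorem for ratios.  Cells with few points: all
pairs and the points `((c + b)/m, (c + b')/m)`, `m` in the ball; a point `c + b` has few representations.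
Freiman's theorem and Weil's bound are proved in Lean.
-/

namespace Pool.Agent.Results.MP_f6e9a2_nt.SumsetBound

/-- Power saving for double character sums over `A` almost invariant under a set `C` of small doubling and an arbitrary set
`B` with few elements in `B + D`, `D` of small doubling. -/
theorem result (K ε : ℝ) (hε : 0 < ε) : ∃ (δ : ℝ) (p₀ : ℕ), 0 < δ ∧
    ∀ (p : ℕ) [Fact p.Prime], p₀ < p → ∀ (A B C D : Finset (ZMod p)) (a b c d : ZMod p), C.Nonempty → D.Nonempty →
      a * d - b * c ≠ 0 → (∀ x ∈ A, c * x + d ≠ 0) → (∀ y ∈ B, c * (-y) + d ≠ 0) →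
      ((C + C).card : ℝ) ≤ K * C.card → ((D + D).card : ℝ) ≤ K * D.card →
      ((A + C).card : ℝ) ≤ (p : ℝ) ^ δ * A.card → (p : ℝ) ^ ε ≤ C.card →
      (p : ℝ) ^ ε * (B + D).card ≤ B.card * D.card →
      (p : ℝ) ^ (1 / 2 + ε) * ((B + D).card : ℝ) ^ 2 ≤ C.card * D.card * (B.card : ℝ) ^ 2 →
      ∀ χ : MulChar (ZMod p) ℂ, χ ≠ 1 → ∀ β : ZMod p → ℂ, (∀ y, ‖β y‖ ≤ 1) →
        ∑ x ∈ A, ‖∑ y ∈ B, β y * χ ((a * x + b) / (c * x + d) - (a * (-y) + b) / (c * (-y) + d))‖ ≤
          (p : ℝ) ^ (-δ) * (A.card * B.card) :=
  Pool.Agent.WS.p_MOW K ε hε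

end Pool.Agent.Results.MP_f6e9a2_nt.SumsetBound
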